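import Pool.Agent.R207.Beam2

set_option autoImplicit false

/-! # Every one-troughed travelling wave of the piecewise linear beam equation is even -/

namespace Pool.Agent.Results.MP_55ecfc_an.AllEven

open Filter Topology Pool.Agent.R207.Beam

/-- `z ∈ C⁴(ℝ)` solves `z'''' + c² z'' + (z+1)⁺ - ξ (z+1)⁻ - 1 = 0` on `ℝ`, and
`z, z' → 0` at `±∞`. -/
structure IsWave (c ξ : ℝ) (z : ℝ → ℝ) : Prop where
  smooth : ContDiff ℝ 4 z
  eqn : ∀ t, iteratedDeriv 4 z t + c ^ 2 * iteratedDeriv 2 z t + max (z t + 1) 0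
    - ξ * max (-(z t + 1)) 0 - 1 = 0
  lim_top : Tendsto z atTop (𝓝 0)
  lim_bot : Tendsto z atBot (𝓝 0)
  lim_top' : Tendsto (deriv z) atTop (𝓝 0)
  lim_bot' : Tendsto (deriv z) atBot (𝓝 0)

/-- There are exactly two points with `z = -1`. -/
def OneTroughed (z : ℝ → ℝ) : Prop := ∃ t1 t2 : ℝ, t1 < t2 ∧ ∀ t, z t = -1 ↔ t = t1 ∨ t = t2

/-- Some translate of `z` is an even function. -/
def IsEven (z : ℝ → ℝ) : Prop := ∃ t0 : ℝ, ∀ t, z (t0 + t) = z (t0 - t)

/-- Every one-troughed wave is even. -/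
theorem result : ∀ c ξ : ℝ, 0 < c ^ 2 → c ^ 2 < 2 → 0 ≤ ξ → ξ < c ^ 4 / 4 →
    ∀ z : ℝ → ℝ, IsWave c ξ z → OneTroughed z → IsEven z := by
  intro c ξ hc0 hc2 hξ0 hξ z hz ht
  obtain ⟨t1, t2, h12, hpts⟩ := ht
  have hd : ∀ n : ℕ, n < 4 → ∀ t, HasDerivAt (iteratedDeriv n z) (iteratedDeriv (n + 1) z t) t := by
    intro n hn t
    have h1 : Differentiable ℝ (iteratedDeriv n z) :=
      hz.smooth.differentiable_iteratedDeriv n (by exact_mod_cast hn)
    have h2 := (h1 t).hasDerivAt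
    rwa [← iteratedDeriv_succ] at h2
  have P : Sol c ξ z (iteratedDeriv 1 z) (iteratedDeriv 2 z) (iteratedDeriv 3 z) :=
    { h0 := fun t => by
        have := hd 0 (by norm_num) t
        rwa [iteratedDeriv_zero] at this
      h1 := fun t => hd 1 (by norm_num) t
      h2 := fun t => hd 2 (by norm_num) t
      h3 := fun t => by
        refine (hd 3 (by norm_num) t).congr_deriv ?_
        have := hz.eqn t
        unfold FF
        linarith }
  have hξ1 : ξ < 1 := by
    have h4 : c ^ 4 = c ^ 2 * c ^ 2 := by ring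
    nlinarith
  have he := P.even hc0 hc2 hξ0 hξ1 hz.lim_top (by rw [iteratedDeriv_one]; exact hz.lim_top')
    hz.lim_bot (by rw [iteratedDeriv_one]; exact hz.lim_bot') h12 hpts
  refine ⟨(t1 + t2) / 2, fun t => ?_⟩
  have := he ((t1 + t2) / 2 - t)
  rw [← this]
  congr 1
  ring

end Pool.Agent.Results.MP_55ecfc_an.AllEven
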